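import Mathlib
import Pool.Agent.Q138.QZ.Fin

set_option autoImplicit false

/-!
# Real zeros of the quadratic L-functions attached to `⌊α u_k⌋`

Let `u_k` be positive numbers with `u_k ≥ k ^ 40` for large `k` (for instance `2 ^ k` or `k!`). For
almost every `α > 0` and all large `k`, the L-functions of all Dirichlet characters attached to
`± ⌊α u_k⌋` have no real zero, and no zero in a strip around the real axis which opens
exponentially, at distance more than `A log k / log u_k` from the line `Re s = 1/2`; those of the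
primitive ones have at most `A log k` zeros (with multiplicity) in `(0,1)` and in the disc of
radius `log k / log ⌊α u_k⌋` about `1/2`. The Hausdorff dimension of the set of exceptions for
fixed distance `ε`, and for `ε log ⌊α u_k⌋` zeros in `(0,1)`, is at most `1 - c₁ ε`.
-/

namespace Pool.Agent.Results.MP_0016c7_nt.AlmostEveryMultiple

open Filter Topology MeasureTheory

/-- `χ` is attached to `n`: `χ p` is the Legendre symbol `(n / p)` for all large primes `p`. For a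
nonsquare `n` these are the primitive quadratic character of the field `ℚ(√n)` and all characters
induced by it. -/
def Attached (n : ℤ) {N : ℕ} (χ : DirichletCharacter ℂ N) : Prop :=
  ∃ B : ℕ, ∀ p : ℕ, p.Prime → B ≤ p → χ (p : ZMod N) = ((jacobiSym n p : ℤ) : ℂ)

/-- The points of the open critical strip in a horizontal strip of height `c / L` about the real
axis, or in a region in the disc `|s - 1/2| ≤ 49/100` whose height grows exponentially with the
distance from the line `Re s = 1/2`. It contains the interval `(0,1)`. -/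
def Region (c L : ℝ) : Set ℂ :=
  {s | 0 < s.re ∧ s.re < 1 ∧ (|s.im| ≤ c / L ∨
    (‖s - 1 / 2‖ ≤ 49 / 100 ∧ |s.im| ≤ c / L * Real.exp (c * |s.re - 1 / 2| * L)))}

/-- For a Dirichlet character `χ` (primitive or not) attached to `n` or to `-n` the function
`L(s, χ)` has a zero in the region with parameter `L = log n` at distance at least `δ` from the
line `Re s = 1/2`. -/
def FarZero (c : ℝ) (n : ℕ) (δ : ℝ) : Prop :=
  ∃ σ : ℤ, (σ = 1 ∨ σ = -1) ∧ ∃ (N : ℕ) (_ : NeZero N) (χ : DirichletCharacter ℂ N),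
    Attached (σ * (n : ℤ)) χ ∧ ∃ s ∈ Region c (Real.log n), δ ≤ |s.re - 1 / 2| ∧
      DirichletCharacter.LFunction χ s = 0

/-- For a primitive Dirichlet character `χ` attached to `n` or to `-n` the function `L(s, χ)` has
at least `M` zeros, counted with multiplicity, in the union of `(0,1)` and the disc
`|s - 1/2| ≤ r`. -/
def ManyZeros (n : ℕ) (r M : ℝ) : Prop :=
  ∃ σ : ℤ, (σ = 1 ∨ σ = -1) ∧ ∃ (N : ℕ) (_ : NeZero N) (χ : DirichletCharacter ℂ N),
    χ.IsPrimitive ∧ Attached (σ * (n : ℤ)) χ ∧ ∃ S : Finset ℂ,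
      (∀ s ∈ S, (s.im = 0 ∧ 0 < s.re ∧ s.re < 1) ∨ ‖s - 1 / 2‖ ≤ r) ∧
      M ≤ ((∑ s ∈ S, analyticOrderNatAt (DirichletCharacter.LFunction χ) s : ℕ) : ℝ)

/-- **Theorem.** (0) For every integer `n` which is not a square there is a primitive quadratic
character attached to `n`. There are `A, c, c₁ > 0` such that for all positive sequences `u`:
(1) if `u k ≥ k ^ 40` for large `k`, then for almost every `α > 0` and all large `k`, `n = ⌊α u k⌋`,
no character attached to `± n` has a zero in the region at distance `≥ A log k / log n` from the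
line `Re s = 1/2`, and no primitive one has `A log k` zeros in `(0,1)` and the disc
`|s - 1/2| ≤ log k / log n`; (2) for `0 < ε ≤ 1/2`, the set of the `α > 0` such that for infinitely
many `k` there is a zero in the region at distance `≥ ε` from the line, or there are
`≥ ε log n` zeros in `(0,1)`, has `s`-dimensional Hausdorff measure zero whenever `1 - c₁ ε < s` and
`∑ u k ^ (1 - c₁ ε - s) < ∞`, and (3) has dimension at most `1 - c₁ ε` if `u` grows faster than
every power of `k`. -/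
theorem result :
    (∀ n : ℤ, ¬ IsSquare n → ∃ (N : ℕ) (_ : NeZero N) (χ : DirichletCharacter ℂ N),
      χ.IsPrimitive ∧ χ ^ 2 = 1 ∧ χ ≠ 1 ∧ Attached n χ) ∧
    ∃ A c c₁ : ℝ, 0 < A ∧ 0 < c ∧ 0 < c₁ ∧ ∀ u : ℕ → ℝ, (∀ k, 0 < u k) →
      ((∀ᶠ k : ℕ in atTop, (k : ℝ) ^ 40 ≤ u k) →
        ∀ᵐ α : ℝ, 0 < α → ∀ᶠ k : ℕ in atTop,
          ¬ FarZero c ⌊α * u k⌋₊ (A * Real.log k / Real.log ⌊α * u k⌋₊) ∧
          ¬ ManyZeros ⌊α * u k⌋₊ (Real.log k / Real.log ⌊α * u k⌋₊) (A * Real.log k)) ∧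
      (∀ ε s : ℝ, 0 < ε → ε ≤ 1 / 2 → 1 - c₁ * ε < s →
        (Summable fun k => (u k) ^ (1 - c₁ * ε - s)) →
        μH[s] {α : ℝ | 0 < α ∧ ∃ᶠ k : ℕ in atTop, FarZero c ⌊α * u k⌋₊ ε ∨
          ManyZeros ⌊α * u k⌋₊ 0 (ε * Real.log ⌊α * u k⌋₊)} = 0) ∧
      ((∀ B : ℝ, ∀ᶠ k : ℕ in atTop, (k : ℝ) ^ B ≤ u k) → ∀ ε : ℝ, 0 < ε → ε ≤ 1 / 2 →
        dimH {α : ℝ | 0 < α ∧ ∃ᶠ k : ℕ in atTop, FarZero c ⌊α * u k⌋₊ ε ∨
          ManyZeros ⌊α * u k⌋₊ 0 (ε * Real.log ⌊α * u k⌋₊)} ≤ ENNReal.ofReal (1 - c₁ * ε)) := by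
  refine ⟨fun n hn => Pool.Agent.Q138.QZ.exists_prim n hn, ?_⟩
  obtain ⟨A₁, c, b₁, hA₁, hc, hb₁, H₁⟩ := Pool.Agent.Q138.QZ.far_main
  obtain ⟨A₂, b₂, hA₂, hb₂, H₂⟩ := Pool.Agent.Q138.QZ.mult_main
  set c₁ : ℝ := min 1 (min b₁ b₂) with hc₁
  have hc₁0 : 0 < c₁ := lt_min one_pos (lt_min hb₁ hb₂)
  have hc₁1 : c₁ ≤ 1 := min_le_left _ _
  have hl1 : c₁ ≤ b₁ := (min_le_right _ _).trans (min_le_left _ _)
  have hl2 : c₁ ≤ b₂ := (min_le_right _ _).trans (min_le_right _ _)
  have e1 : ∀ (n : ℕ) (ε : ℝ), FarZero c n ε →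
      Pool.Agent.Q138.QZ.BadZ c (ε * Real.log n) n := by
    rintro n ε ⟨σ, hσ, N, hN, χ, hχ, s, ⟨h1, h2, h3⟩, h4, h5⟩
    have hl : 0 ≤ Real.log n := Real.log_natCast_nonneg n
    exact ⟨σ, hσ, N, hN, χ, hχ, s, h1, h2, mul_le_mul_of_nonneg_right h4 hl, h3, h5⟩
  have e2 : ∀ (n : ℕ) (M : ℝ), ManyZeros n 0 M → Pool.Agent.Q138.QZ.BadM 1 0 M n := by
    rintro n M ⟨σ, hσ, N, hN, χ, hp, hχ, S, h1, h2⟩
    refine ⟨σ, hσ, N, hN, χ, hp, hχ, S, fun s hs => ?_, ?_⟩
    · rw [zero_mul, zero_div]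
      exact h1 s hs
    · rw [one_mul]
      exact h2
  refine ⟨max A₁ (2 * A₂), c, c₁, lt_max_of_lt_left hA₁, hc, hc₁0, fun u hu => ?_⟩
  have hnull : ∀ ε s : ℝ, 0 < ε → ε ≤ 1 / 2 → 1 - c₁ * ε < s →
        (Summable fun k => (u k) ^ (1 - c₁ * ε - s)) →
        μH[s] {α : ℝ | 0 < α ∧ ∃ᶠ k : ℕ in atTop, FarZero c ⌊α * u k⌋₊ ε ∨
          ManyZeros ⌊α * u k⌋₊ 0 (ε * Real.log ⌊α * u k⌋₊)} = 0 := by
    intro ε s hε hε1 hs hsum
    have h1 := (H₁ u hu).2 c₁ ε s hc₁0 hl1 hε hε1 hs hsum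
    have h2 := (H₂ u hu).2 c₁ ε s hc₁0 hl2 hε hε1 hs hsum
    refine measure_mono_null ?_ (measure_union_null h1 h2)
    rintro α ⟨hα, hfr⟩
    rw [frequently_or_distrib] at hfr
    rcases hfr with h | h
    · exact Or.inl ⟨hα, h.mono fun k hk => e1 _ _ hk⟩
    · exact Or.inr ⟨hα, h.mono fun k hk => e2 _ _ hk⟩
  refine ⟨fun hg => ?_, hnull, fun hsup ε hε hε1 => ?_⟩
  · have hut : Tendsto u atTop atTop := by
      apply tendsto_atTop_mono' atTop (f₁ := fun k : ℕ => (k : ℝ)) _ tendsto_natCast_atTop_atTop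
      filter_upwards [hg, eventually_ge_atTop 1] with k hk hk1
      have h1 : (1 : ℝ) ≤ k := by exact_mod_cast hk1
      exact (le_self_pow₀ h1 (by norm_num)).trans hk
    filter_upwards [(H₁ u hu).1 hg, (H₂ u hu).1 hg] with α h1 h2 hα
    have h3 : Tendsto (fun k => α * u k) atTop atTop := hut.const_mul_atTop hα
    filter_upwards [h1 hα, h2 hα, h3.eventually_ge_atTop 2, eventually_ge_atTop 1]
      with k hk1 hk2 hk3 hk4
    have hn2 : 2 ≤ ⌊α * u k⌋₊ := Nat.le_floor (by exact_mod_cast hk3)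
    have hl : 0 < Real.log ⌊α * u k⌋₊ := Real.log_pos (by exact_mod_cast (by omega))
    have hlk : 0 ≤ Real.log k := Real.log_natCast_nonneg k
    constructor
    · intro hf
      apply hk1
      have h5 := e1 _ _ hf
      rw [div_mul_cancel₀ _ hl.ne'] at h5
      exact Pool.Agent.Q138.QZ.badZ_mono c _ _ _
        (mul_le_mul_of_nonneg_right (le_max_left _ _) hlk) h5
    · rintro ⟨σ, hσ, N, hN, χ, hp, hχ, S, h6, h7⟩
      apply hk2
      refine ⟨σ, hσ, N, hN, χ, hp, hχ, S, fun s hs => ?_, ?_⟩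
      · have e3 : 1 / 2 * (2 * Real.log k) / Real.log ⌊α * u k⌋₊ =
            Real.log k / Real.log ⌊α * u k⌋₊ := by ring
        rw [e3]
        exact h6 s hs
      · refine le_trans ?_ h7
        have h8 := mul_le_mul_of_nonneg_right (le_max_right A₁ (2 * A₂)) hlk
        linarith
  · apply Pool.Agent.Q138.Met.dimH_le_of_null
    · nlinarith
    · intro s hs
      refine hnull ε s hε hε1 hs ?_
      have h1 := Pool.Agent.Q138.Met.summable_of_superpoly hsup
        (by linarith : 0 < s - (1 - c₁ * ε)) hu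
      refine h1.congr fun k => ?_
      congr 1
      ring

end Pool.Agent.Results.MP_0016c7_nt.AlmostEveryMultiple
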