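import Mathlib
import Pool.Agent.Q190.FK.R

/-!
# Real zeros of quadratic `L(s,χ)`: finite certificates of Fekete–Chowla type

Fekete (1912) and Chowla (1936): if `∑ χ(n) x^n` has no zero in `(0,1)`, or if some iterated
partial sums of `χ` are nonnegative, then `L(s,χ) > 0` on `(0,1)`.  Both criteria fail for infinitely
many `χ` (Heilbronn 1937).  Here `χ` is replaced by its Dirichlet convolutions `c * χ` with finitely
supported nonnegative integer sequences `c ≠ 0`.  Then the criteria become necessary and sufficient for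
every primitive quadratic `χ`, and it is enough to use `c` supported on the numbers `p^i q^j`.
-/

open Set

namespace Pool.Agent.Results.MP_0016c7_nt.FeketeCertificates

/-- the Dirichlet convolution `(c * χ)(n) = ∑_{m ∣ n} c(m) χ(n/m)` -/
noncomputable def conv {N : ℕ} (χ : DirichletCharacter ℂ N) (c : ℕ →₀ ℕ) (n : ℕ) : ℝ :=
  ∑ m ∈ n.divisors, (c m : ℝ) * (χ ((n / m : ℕ) : ZMod N)).re

/-- iterated partial sums: `iter g 0 = g`, `iter g (k+1) n = iter g k 0 + ... + iter g k n` -/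
def iter (g : ℕ → ℝ) : ℕ → ℕ → ℝ
  | 0, n => g n
  | k + 1, n => ∑ i ∈ Finset.range (n + 1), iter g k i

theorem iter_eq (g : ℕ → ℝ) : ∀ k n, iter g k n = Pool.Agent.Q190.FK.iter g k n := by
  intro k
  induction k with
  | zero => intro n; rfl
  | succ k ih =>
    intro n
    show ∑ i ∈ Finset.range (n + 1), iter g k i = ∑ i ∈ Finset.range (n + 1), Pool.Agent.Q190.FK.iter g k i
    exact Finset.sum_congr rfl fun i _ => ih i

theorem tsum_eq {N : ℕ} [NeZero N] (χ : DirichletCharacter ℂ N) (h1 : χ ≠ 1) (h2 : χ ^ 2 = 1)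
    {c : ℕ →₀ ℕ} (h0 : c 0 = 0) {t : ℝ} (ht : 0 < t) :
    ∑' n, conv χ c n * Real.exp (-t) ^ n = Pool.Agent.Q190.FK.HH χ c t :=
  (Pool.Agent.Q190.FK.conv_hasSum χ h1 h2 h0 ht).tsum_eq

theorem to_x {P : ℝ → Prop} (h : ∀ t : ℝ, 0 < t → P (Real.exp (-t))) (x : ℝ) (hx0 : 0 < x) (hx1 : x < 1) :
    P x := by
  have ht : 0 < -Real.log x := by have := Real.log_neg hx0 hx1; linarith
  have h3 := h _ ht
  rwa [neg_neg, Real.exp_log hx0] at h3

theorem result :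
    (∀ (N : ℕ) [NeZero N] (χ : DirichletCharacter ℂ N), χ ≠ 1 → χ ^ 2 = 1 →
      ∀ c : ℕ →₀ ℕ, c ≠ 0 → c 0 = 0 →
        ((∀ x : ℝ, 0 < x → x < 1 → 0 ≤ ∑' n, conv χ c n * x ^ n) ∨ (∃ k, ∀ n, 0 ≤ iter (conv χ c) k n)) →
        ∀ s : ℝ, 0 < s → s < 1 → 0 < (χ.LFunction (s : ℂ)).re) ∧
    (∀ (N : ℕ) [NeZero N] (χ : DirichletCharacter ℂ N), χ.IsPrimitive → χ ≠ 1 → χ ^ 2 = 1 →
      ∀ p q : ℕ, 2 ≤ p → 2 ≤ q → (∀ a b : ℕ, p ^ a = q ^ b → a = 0) →
      (∀ s : ℝ, 0 < s → s < 1 → 0 < (χ.LFunction (s : ℂ)).re) →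
        ∃ c : ℕ →₀ ℕ, c ≠ 0 ∧ c 0 = 0 ∧ (∀ m ∈ c.support, ∃ i j : ℕ, m = p ^ i * q ^ j) ∧
          (∀ x : ℝ, 0 < x → x < 1 → 0 < ∑' n, conv χ c n * x ^ n) ∧
          ∃ K, ∀ k ≥ K, ∀ n, 0 ≤ iter (conv χ c) k n) := by
  constructor
  · intro N _ χ h1 h2 c hc h0 h
    apply Pool.Agent.Q190.FK.posL_of_HH χ h1 h2 h0 hc
    intro t ht
    rcases h with h | ⟨k, hk⟩
    · rw [← tsum_eq χ h1 h2 h0 ht]
      exact h _ (Real.exp_pos _) (Pool.Agent.Q190.FK.exp_neg_lt ht)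
    · refine Pool.Agent.Q190.FK.HH_of_iter χ h1 h2 h0 (k := k) (fun n => ?_) ht
      have := hk n
      rwa [iter_eq] at this
  · intro N _ χ hprim h1 h2 p q hp hq hpq hL
    obtain ⟨c, hc, h0, hs, hpos⟩ := Pool.Agent.Q190.FK.exists_cert χ hprim h1 h2 hL hp hq hpq
    refine ⟨c, hc, h0, hs, ?_, ?_⟩
    · apply to_x
      intro t ht
      rw [tsum_eq χ h1 h2 h0 ht]
      exact hpos t ht
    · obtain ⟨K, hK⟩ := Pool.Agent.Q190.FK.iter_of_HH χ h1 h2 h0 hpos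
      refine ⟨K, fun k hk n => ?_⟩
      rw [iter_eq]
      exact hK k hk n

end Pool.Agent.Results.MP_0016c7_nt.FeketeCertificates
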