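import Pool.Agent.Q145.SZ.All

set_option autoImplicit false
set_option maxHeartbeats 4000000

/-!
# Real zeros near 1 and long prime tuples

For every `0 < κ ≤ 1` a bound for the real zeros of quadratic `L`-functions, `β ≤ 1 - (log r)^(-A)`
for all `A > 1 / κ` and all large conductors `r`, is equivalent to the Hardy-Littlewood formula for
almost all admissible prime tuples of length `log^κ' X`, for all `κ' < κ`.
-/

namespace Pool.Agent.Results.MP_0016c7_nt.LongPrimeTuples

open Finset Filter

open scoped Classical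

/-- The number of residue classes modulo `p` occupied by the tuple `s`. -/
def classes {K : ℕ} (s : Fin K → ℕ) (p : ℕ) : ℕ := (univ.image fun i => s i % p).card

/-- The tuple does not occupy all the residue classes modulo any prime. -/
def Admissible {K : ℕ} (s : Fin K → ℕ) : Prop := ∀ p : ℕ, p.Prime → classes s p < p

/-- The partial products (primes up to `w`) of the singular series of the tuple. -/
noncomputable def partialSeries {K : ℕ} (s : Fin K → ℕ) (w : ℕ) : ℝ :=
  ∏ p ∈ (Icc 1 w).filter Nat.Prime, (1 - (classes s p : ℝ) / p) / (1 - 1 / (p : ℝ)) ^ K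

/-- The singular series of the tuple: the limit of the partial products. -/
noncomputable def series {K : ℕ} (s : Fin K → ℕ) : ℝ := limUnder atTop (partialSeries s)

/-- The number of `X < n ≤ 2 X` for which all the `n + s_i` are prime. -/
def count {K : ℕ} (X : ℕ) (s : Fin K → ℕ) : ℕ := ((Ioc X (2 * X)).filter fun n => ∀ i, (n + s i).Prime).card

/-- The admissible `K`-tuples in `[1, X]^K`. -/
noncomputable def tuples (X K : ℕ) : Finset (Fin K → ℕ) :=
  (Fintype.piFinset fun _ => Icc 1 X).filter Admissible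

/-- The formula `count X s = 𝔖(s) X / log^K X` holds, with a relative error at most `ε`, for all but
a proportion at most `ε` of the admissible `K`-tuples in `[1, X]^K`. -/
def Formula (X K : ℕ) (ε : ℝ) : Prop :=
  (((tuples X K).filter fun s =>
    ¬ (|count X s * Real.log X ^ K - series s * X| ≤ ε * (series s * X))).card : ℝ) ≤ ε * (tuples X K).card

/-- At least `C^(-K)` times the expected number of prime tuples, for a proportion at least `δ` of
the admissible `K`-tuples in `[1, X]^K`. -/
def LowerBound (X K : ℕ) (C δ : ℝ) : Prop :=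
  δ * (tuples X K).card ≤ (((tuples X K).filter fun s =>
    series s * X ≤ C ^ K * (count X s * Real.log X ^ K)).card : ℝ)

open Pool.Agent.Q145.SZ

theorem tuples_eq (X K : ℕ) : tuples X K = AT X K := by
  unfold tuples AT
  congr 1

theorem formula_eq (X K : ℕ) (ε : ℝ) : Formula X K ε = HLK X K ε := by
  unfold Formula HLK
  rw [tuples_eq]
  rfl

theorem lower_eq (κ' : ℝ) : (∃ C δ : ℝ, 0 < C ∧ 0 < δ ∧ ∀ᶠ X : ℕ in atTop, LowerBound X ⌊Real.log X ^ κ'⌋₊ C δ) = LBP κ' := by
  unfold LowerBound LBP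
  simp only [tuples_eq]
  rfl

/-- **Theorem.** Let `0 < κ ≤ 1`.  Equivalent are:
(1) for every `A > 1 / κ` all real zeros `β` of primitive Dirichlet characters of large modulus `r`
satisfy `β ≤ 1 - (log r)^(-A)`;
(2) for all `κ' < κ` and `ε > 0` and all large `X` the Hardy-Littlewood formula holds with relative
error `ε` for all but a proportion `ε` of the admissible `K`-tuples in `[1, X]^K`, for all
`K ≤ log^κ' X`;
(3) the same for `K = ⌊log^κ' X⌋` only;
(4) for all `κ' < κ` there are `C` and `δ > 0` such that for all large `X`, for at least a proportion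
`δ` of the admissible tuples of length `K = ⌊log^κ' X⌋`, the number of `X < n ≤ 2 X` with all
`n + s_i` prime is at least `C^(-K)` times the expected number. -/
theorem result (κ : ℝ) (hκ : 0 < κ) (hκ1 : κ ≤ 1) : List.TFAE [
    ∀ A : ℝ, 1 / κ < A → ∃ R : ℕ, ∀ (r : ℕ) [NeZero r], R ≤ r → ∀ χ : DirichletCharacter ℂ r, χ.IsPrimitive →
      ∀ β : ℝ, χ.LFunction β = 0 → β ≤ 1 - Real.log r ^ (-A),
    ∀ κ' : ℝ, 0 < κ' → κ' < κ → ∀ ε : ℝ, 0 < ε → ∀ᶠ X : ℕ in atTop,
      ∀ K : ℕ, (K : ℝ) ≤ Real.log X ^ κ' → Formula X K ε,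
    ∀ κ' : ℝ, 0 < κ' → κ' < κ → ∀ ε : ℝ, 0 < ε → ∀ᶠ X : ℕ in atTop, Formula X ⌊Real.log X ^ κ'⌋₊ ε,
    ∀ κ' : ℝ, 0 < κ' → κ' < κ → ∃ C δ : ℝ, 0 < C ∧ 0 < δ ∧ ∀ᶠ X : ℕ in atTop,
      LowerBound X ⌊Real.log X ^ κ'⌋₊ C δ] := by
  simp only [formula_eq, lower_eq]
  have h := equiv κ hκ hκ1
  tfae_have 2 → 3 := fun h' => (h.out 0 1).1 h'
  tfae_have 3 → 4 := fun h' => (h.out 1 2).1 h'
  tfae_have 4 → 1 := fun h' => (h.out 2 3).1 h'
  tfae_have 1 → 2 := fun h' => (h.out 3 0).1 h'
  tfae_finish

end Pool.Agent.Results.MP_0016c7_nt.LongPrimeTuples
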