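import Mathlib
import Pool.Agent.Q84.MB.F2
import Pool.Agent.Q138.QZ.Fin

/-!
# Consecutive primes all of whose small twists have no real zeros far from the centre

There is `c₀ > 0` such that for every `ε > 0` there is `δ > 0` such that for every `m` there are `c > 0` and, for
every `Z`, a number `C` with the following property. For every large `X` there is a set `S` of at most
`(log X) ^ (49 / 50)` primes, all larger than `Z`, such that for EVERY function `f` with values `1` and `-1` on the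
primes at least `X ^ (1 - δ)` integers `n`, `X < n ≤ 3X`, satisfy: the interval `[n, n + C]` contains at least `m`
primes, and for every prime `p` in it

* for all integers `D ≠ 0`, `|D| ≤ X ^ δ`, the L-functions of all characters attached to `D p` (the quadratic
  character of the field `ℚ(√(D p))` and all characters induced by it) have no zero at distance at least `ε` from the
  line `Re s = 1/2`, neither real nor in a neighbourhood of `(0, 1)` whose height grows exponentially inside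
  `|s - 1/2| ≤ 49/100`, and the primitive one has fewer than `ε log |D p|` zeros in `(0, 1)`, with multiplicity;
* the Legendre symbol `(p / q)` is `f q` for all odd primes `q ≤ c log X` outside `S`.

So no choice of the signs `(p / q)`, `q ≤ c log p`, forces a real zero in `[1/2 + ε, 1)` of the L-function of `p` or
of one of its small twists, not even for consecutive primes in intervals of bounded length.

Method: the bounds for the number of the discriminants with such zeros (mollified moments, Conrey-Soundararajan;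
library `Q138.QZ`) have a power saving; the Maynard-Tao theorem relative to a modulus which is a small power of `X`,
in the form that it avoids arbitrary exceptional sets of size `X ^ (1 - η)` (`Q84/MB/E1-E4`), gives the strings.
-/

set_option autoImplicit false

open scoped Classical

namespace Pool.Agent.Results.MP_0016c7_nt.StringsOfPrimesAndTheirTwists

open Finset Filter

/-- `χ` is attached to `n`: `χ p` is the Legendre symbol `(n / p)` for all large primes `p`. For a
nonsquare `n` these are the primitive quadratic character of the field `ℚ(√n)` and all characters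
induced by it. -/
def Attached (n : ℤ) {N : ℕ} (χ : DirichletCharacter ℂ N) : Prop :=
  ∃ B : ℕ, ∀ p : ℕ, p.Prime → B ≤ p → χ (p : ZMod N) = ((jacobiSym n p : ℤ) : ℂ)

/-- The points of the open critical strip in a horizontal strip of height `c / L` about the real
axis, or in a region in the disc `|s - 1/2| ≤ 49/100` whose height grows exponentially with the
distance from the line `Re s = 1/2`. It contains the interval `(0,1)`. -/
def Region (c L : ℝ) : Set ℂ :=
  {s | 0 < s.re ∧ s.re < 1 ∧ (|s.im| ≤ c / L ∨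
    (‖s - 1 / 2‖ ≤ 49 / 100 ∧ |s.im| ≤ c / L * Real.exp (c * |s.re - 1 / 2| * L)))}

/-- The L-functions of all characters attached to `n` have no zero in the region at distance at least `ε` from the
line `Re s = 1/2`, and those of the primitive ones have fewer than `ε log |n|` zeros in `(0, 1)`, counted with
multiplicity. -/
def Clean (c ε : ℝ) (n : ℤ) : Prop :=
  ∀ (N : ℕ) (_ : NeZero N) (χ : DirichletCharacter ℂ N), Attached n χ →
    (∀ s ∈ Region c (Real.log |(n : ℝ)|), ε ≤ |s.re - 1 / 2| → DirichletCharacter.LFunction χ s ≠ 0) ∧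
    (χ.IsPrimitive → ∀ T : Finset ℂ, (∀ s ∈ T, s.im = 0 ∧ 0 < s.re ∧ s.re < 1) →
      ((∑ s ∈ T, analyticOrderNatAt (DirichletCharacter.LFunction χ) s : ℕ) : ℝ) < ε * Real.log |(n : ℝ)|)

/-- **Theorem.** (0) For every integer `n` which is not a square there is a primitive quadratic character attached
to `n`. (1) Consecutive primes of bounded diameter, with prescribed Legendre symbols modulo almost all the small
primes, all of whose small twists have no zeros far from the central line in the region. -/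
theorem result :
    (∀ n : ℤ, ¬ IsSquare n → ∃ (N : ℕ) (_ : NeZero N) (χ : DirichletCharacter ℂ N),
      χ.IsPrimitive ∧ χ ^ 2 = 1 ∧ χ ≠ 1 ∧ Attached n χ) ∧
    ∃ c₀ : ℝ, 0 < c₀ ∧ ∀ ε : ℝ, 0 < ε → ∃ δ : ℝ, 0 < δ ∧ ∀ m : ℕ, ∃ c : ℝ, 0 < c ∧
    ∀ Z : ℕ, ∃ C : ℕ, ∃ X₀ : ℝ, ∀ X : ℝ, X₀ ≤ X →
    ∃ S : Finset ℕ, (∀ q ∈ S, q.Prime ∧ Z < q) ∧ (S.card : ℝ) ≤ (Real.log X) ^ (49 / 50 : ℝ) ∧
    ∀ f : ℕ → ℤ, (∀ q, f q = 1 ∨ f q = -1) →
      X ^ (1 - δ) ≤ (((Icc 1 ⌊3 * X⌋₊).filter fun n : ℕ => X < n ∧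
        m ≤ ((Icc n (n + C)).filter Nat.Prime).card ∧
        ∀ p ∈ Icc n (n + C), p.Prime →
          (∀ D : ℤ, D ≠ 0 → |(D : ℝ)| ≤ X ^ δ → Clean c₀ ε (D * p)) ∧
          ∀ q : ℕ, q.Prime → q ≠ 2 → (q : ℝ) ≤ c * Real.log X → q ∉ S → jacobiSym p q = f q).card : ℝ) := by
  refine ⟨fun n hn => Pool.Agent.Q138.QZ.exists_prim n hn, ?_⟩
  obtain ⟨c₀, hc₀, hz⟩ := Pool.Agent.Q84.MB.zeros_bad
  refine ⟨c₀, hc₀, fun ε hε => ?_⟩
  obtain ⟨δ, hδ, hδ1, hbad⟩ := hz ε hε
  refine ⟨δ, hδ, fun m => ?_⟩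
  obtain ⟨c, hc, hmain⟩ := Pool.Agent.Q84.MB.strings (max 1 m) 2 1 (le_max_left _ _) Nat.prime_two (δ / 2)
    (by positivity)
  refine ⟨c, hc, fun Z => ?_⟩
  obtain ⟨C, hC⟩ := hmain Z
  obtain ⟨X₀, hX₀⟩ := eventually_atTop.1 ((hC.and hbad).and
    ((eventually_ge_atTop (8 : ℝ)).and (eventually_ge_atTop ((C : ℝ)))))
  refine ⟨C, X₀, fun X hX => ?_⟩
  obtain ⟨⟨hstr, hbd⟩, hX8, hXC⟩ := hX₀ X hX
  obtain ⟨S, hS1, hS2, hS3⟩ := hstr
  refine ⟨S, hS1, hS2, fun f hf => ?_⟩
  have hX0 : 0 < X := by linarith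
  have hX1 : 1 ≤ X := by linarith
  obtain ⟨b, hb⟩ := Pool.Agent.Q84.MB.exists_sym f hf
  -- the bad primes
  obtain ⟨P, hP⟩ : ∃ P, P = (Icc 1 ⌊4 * X⌋₊).filter fun p : ℕ => p.Prime ∧ X < p ∧
    ∃ D : ℤ, D ≠ 0 ∧ |(D : ℝ)| ≤ X ^ δ ∧ ¬ Clean c₀ ε (D * p) := ⟨_, rfl⟩
  have hPc : (P.card : ℝ) ≤ X ^ (1 - δ / 2) := by
    apply hbd
    intro p hp
    rw [hP, mem_filter, mem_Icc] at hp
    obtain ⟨⟨-, hp4⟩, hpp, hXp, D, hD0, hDX, hcl⟩ := hp
    refine ⟨hpp, hXp, (Nat.le_floor_iff (by linarith)).1 hp4, D.natAbs, ?_, ?_, ?_⟩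
    · exact Int.natAbs_pos.2 hD0
    · rw [Nat.cast_natAbs]
      push_cast
      exact hDX
    · obtain ⟨σ, hσ, hσD⟩ : ∃ σ : ℤ, (σ = 1 ∨ σ = -1) ∧ D * p = σ * ((D.natAbs * p : ℕ) : ℤ) := by
        rcases le_or_gt 0 D with h | h
        · refine ⟨1, Or.inl rfl, ?_⟩
          push_cast
          rw [abs_of_nonneg h, one_mul]
        · refine ⟨-1, Or.inr rfl, ?_⟩
          push_cast
          rw [abs_of_neg h]
          ring
      have hlogeq : Real.log |((D * p : ℤ) : ℝ)| = Real.log ((D.natAbs * p : ℕ) : ℝ) := by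
        congr 1
        have h1 : ((D.natAbs * p : ℕ) : ℤ) = |D * (p : ℤ)| := by
          push_cast
          rw [abs_mul, Nat.abs_cast]
        rw [← Int.cast_abs, ← h1]
        norm_cast
      have hn0 : (p : ℝ) ≤ ((D.natAbs * p : ℕ) : ℝ) := by
        have h1 : 1 ≤ D.natAbs := Int.natAbs_pos.2 hD0
        exact_mod_cast Nat.le_mul_of_pos_left p h1
      have hR : ε * Real.log X ≤ ε * Real.log ((D.natAbs * p : ℕ) : ℝ) := by
        apply mul_le_mul_of_nonneg_left _ hε.le
        exact Real.log_le_log hX0 (by linarith)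
      have hl0 : 0 ≤ Real.log ((D.natAbs * p : ℕ) : ℝ) := Real.log_natCast_nonneg _
      unfold Clean at hcl
      push Not at hcl
      obtain ⟨N, hN, χ, hχ, h1⟩ := hcl
      rw [hσD] at hχ
      by_cases h2 : ∀ s ∈ Region c₀ (Real.log |((D * p : ℤ) : ℝ)|), ε ≤ |s.re - 1 / 2| →
          DirichletCharacter.LFunction χ s ≠ 0
      · right
        obtain ⟨hpr, T, hT, hsum⟩ := h1 h2
        refine ⟨σ, hσ, N, hN, χ, hpr, hχ, T, fun s hs => Or.inl (hT s hs), ?_⟩
        rw [one_mul]
        rw [hlogeq] at hsum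
        exact hR.trans hsum
      · left
        push Not at h2
        obtain ⟨s, hs, hse, hs0⟩ := h2
        rw [hlogeq] at hs
        obtain ⟨h3, h4, h5⟩ := hs
        refine ⟨σ, hσ, N, hN, χ, hχ, s, h3, h4, hR.trans ?_, h5, hs0⟩
        exact mul_le_mul_of_nonneg_right hse hl0
  have hpow : X ^ (1 - δ) ≤ X ^ (1 - δ / 2) := Real.rpow_le_rpow_of_exponent_le hX1 (by linarith)
  obtain ⟨G, hGc, hG⟩ := hS3 b (fun q hq => (hb q hq).1) P hPc
  refine hpow.trans (hGc.trans ?_)
  have hsub : G ⊆ (Icc 1 ⌊3 * X⌋₊).filter fun n : ℕ => X < n ∧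
        m ≤ ((Icc n (n + C)).filter Nat.Prime).card ∧
        ∀ p ∈ Icc n (n + C), p.Prime →
          (∀ D : ℤ, D ≠ 0 → |(D : ℝ)| ≤ X ^ δ → Clean c₀ ε (D * p)) ∧
          ∀ q : ℕ, q.Prime → q ≠ 2 → (q : ℝ) ≤ c * Real.log X → q ∉ S → jacobiSym p q = f q := by
    intro n hn
    obtain ⟨hXn, hn3, hm, hstr⟩ := hG n hn
    rw [mem_filter, mem_Icc]
    refine ⟨⟨?_, Nat.le_floor hn3⟩, hXn, (le_max_right 1 m).trans hm, fun p hp hpp => ?_⟩
    · have : (0 : ℝ) < n := by linarith
      exact_mod_cast this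
    · obtain ⟨hpb, hres⟩ := hstr p hp hpp
      rw [mem_Icc] at hp
      have hXp : X < p := lt_of_lt_of_le hXn (by exact_mod_cast hp.1)
      have hp4 : p ≤ ⌊4 * X⌋₊ := by
        apply Nat.le_floor
        have h5 : (p : ℝ) ≤ n + C := by exact_mod_cast hp.2
        linarith
      refine ⟨fun D hD0 hDX => ?_, fun q hq hq2 hqy hqS => ?_⟩
      · by_contra hcon
        apply hpb
        rw [hP, mem_filter, mem_Icc]
        exact ⟨⟨hpp.one_lt.le, hp4⟩, hpp, hXp, D, hD0, hDX, hcon⟩
      · obtain ⟨-, z, hz1, hz2⟩ := hres q hq hqy hqS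
        rw [Pool.Agent.Q84.MB.sym_eq b p q z hq hz1 hz2]
        exact (hb q hq).2 hq2
  exact_mod_cast card_le_card hsub

end Pool.Agent.Results.MP_0016c7_nt.StringsOfPrimesAndTheirTwists
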